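import Pool.Agent.Helper70.RT.Sheet

/-! Row R10. -/

set_option autoImplicit false

namespace Pool.Helper70.RT

namespace S53

open Polynomial

def M0 : Matrix (Fin 7) (Fin 7) ℤ :=
  !![22334942396416, -6687366144, 190224, 48, 0, 0, 0; 0, 22334942396416, -6687366144, 190224, 48, 0, 0; 0, 0, 22334942396416, -6687366144, 190224, 48, 0; 0, 0, 0, 22334942396416, -6687366144, 190224, 48; -211389738498834563072, 98794272184860672, -24512213274624, 3569606784, -210816, 0, 0; 0, -211389738498834563072, 98794272184860672, -24512213274624, 3569606784, -210816, 0; 0, 0, -211389738498834563072, 98794272184860672, -24512213274624, 3569606784, -210816]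

def M5 : Matrix (Fin 7) (Fin 7) (ZMod 5) :=
  !![1, 1, 4, 3, 0, 0, 0; 0, 1, 1, 4, 3, 0, 0; 0, 0, 1, 1, 4, 3, 0; 0, 0, 0, 1, 1, 4, 3; 3, 2, 1, 4, 4, 0, 0; 0, 3, 2, 1, 4, 4, 0; 0, 0, 3, 2, 1, 4, 4]

def N5 : Matrix (Fin 7) (Fin 7) (ZMod 5) :=
  !![3, 4, 4, 0, 1, 2, 0; 0, 3, 4, 4, 0, 1, 2; 2, 3, 2, 0, 1, 1, 0; 0, 2, 3, 2, 0, 1, 1; 1, 4, 4, 1, 3, 3, 3; 3, 3, 0, 3, 4, 2, 4; 4, 4, 1, 2, 2, 1, 0]

lemma pI10 : pI (1 : ℤ) 0 = C 48 * X ^ 3 + C 190224 * X ^ 2 + C (-6687366144) * X +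
    C 22334942396416 := by
  unfold pI fI q4 q3 q2 q1 q0 e2 e3 g0 h3 h2 h1 h0
  simp only [map_zero, map_one, map_neg, map_ofNat]
  ring

lemma pJ10 : pJ (1 : ℤ) 0 = C (-210816) * X ^ 4 + C 3569606784 * X ^ 3 + C (-24512213274624) * X ^ 2 +
    C 98794272184860672 * X + C (-211389738498834563072) := by
  unfold pJ fJ q4 q3 q2 q1 q0 e2 e3 g0 h3 h2 h1 h0
  simp only [map_zero, map_one, map_neg, map_ofNat]
  ring

lemma cI (k : ℕ) : (pI (1 : ℤ) 0).coeff k = (if k = 3 then 48 else 0) + (if k = 2 then 190224 else 0) +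
    (if k = 1 then -6687366144 else 0) + (if k = 0 then 22334942396416 else 0) := by
  rw [pI10]
  simp only [coeff_add, coeff_C_mul, coeff_X_pow, coeff_X, coeff_C, mul_ite, mul_one, mul_zero,
    eq_comm (a := 1) (b := k)]

lemma cJ (k : ℕ) : (pJ (1 : ℤ) 0).coeff k = (if k = 4 then -210816 else 0) +
    (if k = 3 then 3569606784 else 0) + (if k = 2 then -24512213274624 else 0) +
    (if k = 1 then 98794272184860672 else 0) + (if k = 0 then -211389738498834563072 else 0) := by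
  rw [pJ10]
  simp only [coeff_add, coeff_C_mul, coeff_X_pow, coeff_X, coeff_C, mul_ite, mul_one, mul_zero,
    eq_comm (a := 1) (b := k)]

lemma sylM0 : syl (pI (1 : ℤ) 0) (pJ (1 : ℤ) 0) = M0 := by
  ext i j
  unfold syl M0
  simp only [Matrix.of_apply, cI, cJ]
  fin_cases i <;> fin_cases j <;> rfl

lemma mapM0 : M0.map (Int.castRingHom (ZMod 5)) = M5 := by
  ext i j
  fin_cases i <;> fin_cases j <;> decide

lemma mulN5 : M5 * N5 = 1 := by decide +kernel

end S53

theorem st_R10 : ST_R10 := by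
  intro h
  unfold Ru at h
  rw [S53.sylM0] at h
  have h1 : (S53.M5).det = 0 := by
    rw [← S53.mapM0, ← RingHom.mapMatrix_apply, ← RingHom.map_det, h, map_zero]
  have h2 : (S53.M5 * S53.N5).det = 1 := by rw [S53.mulN5, Matrix.det_one]
  rw [Matrix.det_mul, h1, zero_mul] at h2
  exact absurd h2 (by decide)

end Pool.Helper70.RT
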